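import Mathlib

set_option autoImplicit false

open Set Filter Topology

namespace Pool.Agent.Y40.PM

/-- splitting of an open set -/
theorem split_open {Z : Type} [TopologicalSpace Z] [T3Space Z]
    (hi : ∀ x : Z, ¬ IsOpen ({x} : Set Z)) (U V : Set Z) (hU : IsOpen U) (hV : IsOpen V)
    (hne : U.Nonempty) :
    ∃ W : Set Z, IsOpen W ∧ W.Nonempty ∧ W ⊆ U ∧ (U \ closure W).Nonempty ∧
      ((U ∩ V).Nonempty → W ⊆ V) := by
  classical
  obtain ⟨O, hO, hOne, hOU, hOV⟩ : ∃ O : Set Z, IsOpen O ∧ O.Nonempty ∧ O ⊆ U ∧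
      ((U ∩ V).Nonempty → O ⊆ V) := by
    by_cases h : (U ∩ V).Nonempty
    · exact ⟨U ∩ V, hU.inter hV, h, inter_subset_left, fun _ => inter_subset_right⟩
    · exact ⟨U, hU, hne, Subset.rfl, fun h' => absurd h' h⟩
  obtain ⟨x, hx⟩ := hOne
  obtain ⟨y, hy, hyx⟩ : ∃ y ∈ O, y ≠ x := by
    by_contra hcon
    push Not at hcon
    have h1 : O = {x} := by
      ext z
      exact ⟨fun hz => hcon z hz, fun hz => by rw [mem_singleton_iff.1 hz]; exact hx⟩
    exact hi x (h1 ▸ hO)
  have hN : O ∩ {y}ᶜ ∈ 𝓝 x := (hO.inter isOpen_compl_singleton).mem_nhds ⟨hx, fun h => hyx h.symm⟩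
  obtain ⟨C, hC, hCc, hCs⟩ := exists_mem_nhds_isClosed_subset hN
  refine ⟨interior C, isOpen_interior, ⟨x, mem_interior_iff_mem_nhds.2 hC⟩, ?_, ?_, ?_⟩
  · exact fun z hz => hOU (hCs (interior_subset hz)).1
  · refine ⟨y, hOU hy, fun hyc => ?_⟩
    exact (hCs (closure_minimal interior_subset hCc hyc)).2 rfl
  · exact fun h z hz => hOV h (hCs (interior_subset hz)).1

/-- the history of a point -/
def pre (x : ℕ → Bool) : ℕ → List Bool
  | 0 => []
  | n + 1 => x n :: pre x n

theorem pre_length (x : ℕ → Bool) (n : ℕ) : (pre x n).length = n := by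
  induction n with
  | zero => rfl
  | succ n ih => simp [pre, ih]

theorem pre_congr (x y : ℕ → Bool) (n : ℕ) (h : ∀ i < n, x i = y i) : pre x n = pre y n := by
  induction n with
  | zero => rfl
  | succ n ih => simp only [pre]; rw [h n (Nat.lt_succ_self n), ih fun i hi => h i (by omega)]

theorem pre_inj (x y : ℕ → Bool) (n : ℕ) (h : pre x n = pre y n) : ∀ i < n, x i = y i := by
  induction n with
  | zero => intro i hi; omega
  | succ n ih =>
    simp only [pre, List.cons.injEq] at h
    intro i hi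
    rcases Nat.lt_succ_iff_lt_or_eq.1 hi with h' | h'
    · exact ih h.2 i h'
    · rw [h']; exact h.1

theorem isOpen_pre (s : List Bool) : IsOpen {x : ℕ → Bool | pre x s.length = s} := by
  rw [isOpen_iff_mem_nhds]
  intro x hx
  have h1 : {y : ℕ → Bool | ∀ i ∈ Finset.range s.length, y i = x i} ∈ 𝓝 x := by
    have h2 : {y : ℕ → Bool | ∀ i ∈ Finset.range s.length, y i = x i} =
        (↑(Finset.range s.length) : Set ℕ).pi fun i => {x i} := by
      ext y; simp [Set.mem_pi]
    rw [h2]
    exact set_pi_mem_nhds (Finset.finite_toSet _) fun i _ => by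
      rw [nhds_discrete]; exact mem_pure.2 rfl
  refine mem_of_superset h1 ?_
  intro y hy
  have h3 : pre y s.length = pre x s.length :=
    pre_congr _ _ _ fun i hi' => hy i (Finset.mem_range.2 hi')
  show pre y s.length = s
  rw [h3]; exact hx

theorem exists_pre (s : List Bool) : ∃ x : ℕ → Bool, pre x s.length = s := by
  induction s with
  | nil => exact ⟨fun _ => false, rfl⟩
  | cons b s ih =>
    obtain ⟨x, hx⟩ := ih
    refine ⟨fun i => if i = s.length then b else x i, ?_⟩
    simp only [List.length_cons, pre, if_true]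
    rw [pre_congr _ x s.length (fun i hi => by simp [Nat.ne_of_lt hi]), hx]

/-- an open set of the Cantor space contains a basic set at every point -/
theorem exists_cyl {O : Set (ℕ → Bool)} (hO : IsOpen O) {x : ℕ → Bool} (hx : x ∈ O) :
    ∃ n, ∀ m ≥ n, ∀ y, pre y m = pre x m → y ∈ O := by
  have h1 := hO.mem_nhds hx
  rw [nhds_pi, Filter.mem_pi] at h1
  obtain ⟨I, hI, t, ht, hsub⟩ := h1
  obtain ⟨n, hn⟩ := hI.bddAbove
  refine ⟨n + 1, fun m hm y hy => hsub ?_⟩
  intro i hi
  have h2 : y i = x i := pre_inj _ _ _ hy i (by have := hn hi; omega)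
  rw [h2]
  exact mem_of_mem_nhds (ht i)

/-- **A nonempty perfect Polish space admits a map into the Cantor space under which the preimages
of meager sets are meager.** -/
theorem exists_cat_map (Z : Type) [TopologicalSpace Z] [PolishSpace Z] [Nonempty Z]
    (hi : ∀ x : Z, ¬ IsOpen ({x} : Set Z)) :
    ∃ φ : Z → (ℕ → Bool), ∀ S : Set (ℕ → Bool), IsMeagre S → IsMeagre (φ ⁻¹' S) := by
  classical
  have hbne : (TopologicalSpace.countableBasis Z).Nonempty := by
    obtain ⟨z⟩ := (inferInstance : Nonempty Z)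
    obtain ⟨v, hv, _⟩ := (TopologicalSpace.isBasis_countableBasis Z).exists_subset_of_mem_open
      (mem_univ z) isOpen_univ
    exact ⟨v, hv⟩
  obtain ⟨V, hV⟩ := (TopologicalSpace.countable_countableBasis Z).exists_eq_range hbne
  have hVb : TopologicalSpace.IsTopologicalBasis (range V) :=
    hV ▸ TopologicalSpace.isBasis_countableBasis Z
  have hVo : ∀ n, IsOpen (V n) := fun n => hVb.isOpen ⟨n, rfl⟩
  have hsp : ∀ (m : ℕ) (U : Set Z), ∃ W : Set Z, IsOpen U → U.Nonempty →
      IsOpen W ∧ W.Nonempty ∧ W ⊆ U ∧ (U \ closure W).Nonempty ∧ ((U ∩ V m).Nonempty → W ⊆ V m) := by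
    intro m U
    by_cases h : IsOpen U ∧ U.Nonempty
    · obtain ⟨W, hW⟩ := split_open hi U (V m) h.1 (hVo m) h.2
      exact ⟨W, fun _ _ => hW⟩
    · exact ⟨∅, fun h1 h2 => absurd ⟨h1, h2⟩ h⟩
  choose sp hsp using hsp
  let U : List Bool → Set Z := fun s =>
    List.rec (motive := fun _ => Set Z) univ
      (fun b s Us => bif b then Us \ closure (sp s.length Us) else sp s.length Us) s
  have hU0 : U [] = univ := rfl
  have hUf : ∀ s, U (false :: s) = sp s.length (U s) := fun s => rfl
  have hUt : ∀ s, U (true :: s) = U s \ closure (sp s.length (U s)) := fun s => rfl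
  have hUon : ∀ s, IsOpen (U s) ∧ (U s).Nonempty := by
    intro s
    induction s with
    | nil => exact ⟨isOpen_univ, univ_nonempty⟩
    | cons b s ih =>
      obtain ⟨h1, h2, h3, h4, h5⟩ := hsp s.length (U s) ih.1 ih.2
      cases b
      · rw [hUf]; exact ⟨h1, h2⟩
      · rw [hUt]; exact ⟨ih.1.sdiff isClosed_closure, h4⟩
  have hUs : ∀ b s, U (b :: s) ⊆ U s := by
    intro b s
    obtain ⟨h1, h2, h3, h4, h5⟩ := hsp s.length (U s) (hUon s).1 (hUon s).2
    cases b
    · rw [hUf]; exact h3
    · rw [hUt]; exact sdiff_subset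
  -- the map
  let hist : Z → ℕ → List Bool := fun z n =>
    Nat.rec (motive := fun _ => List Bool) [] (fun _ s => decide (z ∉ U (false :: s)) :: s) n
  let φ : Z → ℕ → Bool := fun z n => decide (z ∉ U (false :: hist z n))
  have hhist : ∀ z n, hist z n = pre (φ z) n := by
    intro z n
    induction n with
    | zero => rfl
    | succ n ih =>
      show decide (z ∉ U (false :: hist z n)) :: hist z n = φ z n :: pre (φ z) n
      rw [← ih]
  have hmem : ∀ s z, z ∈ U s → pre (φ z) s.length = s := by
    intro s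
    induction s with
    | nil => intro z _; rfl
    | cons b s ih =>
      intro z hz
      have h1 := ih z (hUs b s hz)
      show φ z s.length :: pre (φ z) s.length = b :: s
      rw [h1]
      have h2 : φ z s.length = decide (z ∉ U (false :: s)) := by
        show decide (z ∉ U (false :: hist z s.length)) = _
        rw [hhist, h1]
      rw [h2]
      cases b
      · simp [hz]
      · have h3 : z ∉ U (false :: s) := by
          rw [hUt] at hz
          rw [hUf]
          exact fun h => hz.2 (subset_closure h)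
        simp [h3]
  have hanti : ∀ x : ℕ → Bool, ∀ m n, m ≤ n → U (pre x n) ⊆ U (pre x m) := by
    intro x m n hmn
    induction n, hmn using Nat.le_induction with
    | base => exact Subset.rfl
    | succ n _ ih => exact (hUs _ _).trans ih
  -- density of the levels
  have hlev : ∀ m, ∀ O : Set Z, IsOpen O → O.Nonempty → ∃ s : List Bool, s.length = m ∧
      (O ∩ U s).Nonempty := by
    intro m
    induction m with
    | zero => intro O _ hne; exact ⟨[], rfl, by rw [hU0, inter_univ]; exact hne⟩
    | succ m ih =>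
      intro O hO hne
      obtain ⟨s, hs, z, hzO, hzs⟩ := ih O hO hne
      by_cases hz : (O ∩ U (false :: s)).Nonempty
      · exact ⟨false :: s, by simp [hs], hz⟩
      · refine ⟨true :: s, by simp [hs], z, hzO, ?_⟩
        rw [hUt]
        refine ⟨hzs, fun hzc => hz ?_⟩
        rw [hUf]
        obtain ⟨w, hw1, hw2⟩ := mem_closure_iff.1 hzc O hO hzO
        exact ⟨w, hw1, hw2⟩
  have hbase : ∀ O : Set Z, IsOpen O → O.Nonempty → ∃ s, U s ⊆ O := by
    intro O hO ⟨z, hz⟩
    obtain ⟨_, ⟨m, rfl⟩, hzm, hm⟩ := hVb.exists_subset_of_mem_open hz hO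
    obtain ⟨s, hs, hne⟩ := hlev m (V m) (hVo m) ⟨z, hzm⟩
    obtain ⟨h1, h2, h3, h4, h5⟩ := hsp s.length (U s) (hUon s).1 (hUon s).2
    refine ⟨false :: s, ?_⟩
    rw [hUf]
    refine (h5 ?_).trans (hs ▸ hm)
    rw [hs, inter_comm]
    exact hne
  refine ⟨φ, ?_⟩
  have hnd : ∀ t : Set (ℕ → Bool), IsNowhereDense t → IsMeagre (φ ⁻¹' t) := by
    intro t ht
    set O : Set (ℕ → Bool) := (closure t)ᶜ with hOdef
    have hOo : IsOpen O := isClosed_closure.isOpen_compl
    have hOd : Dense O := by
      rw [← interior_eq_empty_iff_dense_compl]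
      exact ht
    let P : Set Z := ⋃ s ∈ {s : List Bool | ∀ x, pre x s.length = s → x ∈ O}, U s
    have hPo : IsOpen P := isOpen_biUnion fun s _ => (hUon s).1
    have hPd : Dense P := by
      intro z
      rw [mem_closure_iff]
      intro N hN hzN
      obtain ⟨s, hs⟩ := hbase N hN ⟨z, hzN⟩
      obtain ⟨x, hx1, hx2⟩ := hOd.inter_open_nonempty _ (isOpen_pre s) (exists_pre s)
      obtain ⟨n, hn⟩ := exists_cyl hOo hx2
      have h1 : U (pre x (max n s.length)) ⊆ U s := by
        have := hanti x s.length (max n s.length) (le_max_right _ _)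
        rwa [show pre x s.length = s from hx1] at this
      obtain ⟨w, hw⟩ := (hUon (pre x (max n s.length))).2
      refine ⟨w, hs (h1 hw), mem_biUnion (x := pre x (max n s.length)) ?_ hw⟩
      intro y hy
      rw [pre_length] at hy
      exact hn _ (le_max_left _ _) y hy
    rw [IsMeagre]
    refine mem_of_superset (residual_of_dense_open hPo hPd) ?_
    intro z hz
    simp only [P, mem_iUnion, mem_ofPred_eq] at hz
    obtain ⟨s, hs, hzs⟩ := hz
    intro hzt
    exact hs (φ z) (hmem s z hzs) (subset_closure hzt)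
  intro S hS
  rw [isMeagre_iff_countable_union_isNowhereDense] at hS
  obtain ⟨T, hT, hTc, hsub⟩ := hS
  refine (isMeagre_biUnion hTc fun t ht => hnd t (hT t ht)).mono ?_
  intro z hz
  obtain ⟨t, ht, hzt⟩ := hsub hz
  simp only [mem_iUnion]
  exact ⟨t, ht, hzt⟩

end Pool.Agent.Y40.PM
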